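import Mathlib

/-!
# The quantization law: the limit (numbers)
-/

set_option autoImplicit false

open Filter Topology

namespace Pool.Agent.Helper73.QL

/-- `v` = ranks of the system on `X ^ (2 l)`, `n` = numerical ranks, `g s l` = ranks of the part
which is generated by the classes on the power number `s`, `d s` = the limits of `g s l / n l`:
then `v / n` converges to the largest `d s`, or to infinity. -/
theorem limit_law {v n : ℕ → ℕ} (hn : ∀ l, 1 ≤ n l) {g : ℕ → ℕ → ℕ} {d : ℕ → ℕ}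
    (h1 : ∀ s, ∀ᶠ l in atTop, g s l ≤ v l)
    (h2 : ∀ s, Tendsto (fun l => (g s l : ℝ) / n l) atTop (𝓝 (d s)))
    (h3 : ∀ s, v s ≤ d s * n s) :
    (∃ D : ℕ, (∃ s, d s = D) ∧ (∀ s, d s ≤ D) ∧
      (∀ l, v l ≤ D * n l) ∧ Tendsto (fun l => (v l : ℝ) / n l) atTop (𝓝 D)) ∨
    Tendsto (fun l => (v l : ℝ) / n l) atTop atTop := by
  have hn0 : ∀ l, (0 : ℝ) < n l := fun l => by exact_mod_cast hn l
  have hlow : ∀ s (a : ℝ), a < d s → ∀ᶠ l in atTop, a < (v l : ℝ) / n l := by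
    intro s a ha
    filter_upwards [(h2 s).eventually_const_lt ha, h1 s] with l hl hl'
    refine lt_of_lt_of_le hl ?_
    have : (g s l : ℝ) ≤ v l := by exact_mod_cast hl'
    exact div_le_div_of_nonneg_right this (hn0 l).le
  by_cases hb : ∃ M, ∀ s, d s ≤ M
  · left
    obtain ⟨M, hM⟩ := hb
    have hbdd : BddAbove (Set.range d) := ⟨M, by rintro _ ⟨s, rfl⟩; exact hM s⟩
    have hne : (Set.range d).Nonempty := ⟨d 0, 0, rfl⟩
    obtain ⟨s0, hs0⟩ := Nat.sSup_mem hne hbdd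
    have hmax : ∀ s, d s ≤ d s0 := fun s => by
      rw [hs0]
      exact le_csSup hbdd ⟨s, rfl⟩
    have hup : ∀ l, v l ≤ d s0 * n l := fun l =>
      (h3 l).trans (Nat.mul_le_mul_right _ (hmax l))
    refine ⟨d s0, ⟨s0, rfl⟩, hmax, hup, ?_⟩
    refine tendsto_order.2 ⟨fun a ha => hlow s0 a ha, fun a ha => ?_⟩
    refine Eventually.of_forall fun l => lt_of_le_of_lt ?_ ha
    rw [div_le_iff₀ (hn0 l)]
    exact_mod_cast hup l
  · right
    push Not at hb
    refine tendsto_atTop.2 fun a => ?_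
    obtain ⟨m, hm⟩ := exists_nat_gt a
    obtain ⟨s, hs⟩ := hb m
    have hs' : a < d s := hm.trans (by exact_mod_cast hs)
    exact (hlow s a hs').mono fun l hl => hl.le

/-- The version with an upper bound of the ranks of the pieces by `U`, where `U / n` converges
to `1`. -/
theorem limit_law' {v n U : ℕ → ℕ} (hn : ∀ l, 1 ≤ n l) {g : ℕ → ℕ → ℕ} {d : ℕ → ℕ}
    (h1 : ∀ s, ∀ᶠ l in atTop, g s l ≤ v l)
    (h2 : ∀ s, Tendsto (fun l => (g s l : ℝ) / n l) atTop (𝓝 (d s)))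
    (h3 : ∀ s ≥ 1, v s ≤ d s * U s)
    (hU : Tendsto (fun l => (U l : ℝ) / n l) atTop (𝓝 1)) :
    (∃ D : ℕ, (∃ s, d s = D) ∧ (∀ s, d s ≤ D) ∧
      Tendsto (fun l => (v l : ℝ) / n l) atTop (𝓝 D)) ∨
    Tendsto (fun l => (v l : ℝ) / n l) atTop atTop := by
  have hn0 : ∀ l, (0 : ℝ) < n l := fun l => by exact_mod_cast hn l
  have hlow : ∀ s (a : ℝ), a < d s → ∀ᶠ l in atTop, a < (v l : ℝ) / n l := by
    intro s a ha
    filter_upwards [(h2 s).eventually_const_lt ha, h1 s] with l hl hl'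
    refine lt_of_lt_of_le hl ?_
    have : (g s l : ℝ) ≤ v l := by exact_mod_cast hl'
    exact div_le_div_of_nonneg_right this (hn0 l).le
  by_cases hb : ∃ M, ∀ s, d s ≤ M
  · left
    obtain ⟨M, hM⟩ := hb
    have hbdd : BddAbove (Set.range d) := ⟨M, by rintro _ ⟨s, rfl⟩; exact hM s⟩
    have hne : (Set.range d).Nonempty := ⟨d 0, 0, rfl⟩
    obtain ⟨s0, hs0⟩ := Nat.sSup_mem hne hbdd
    have hmax : ∀ s, d s ≤ d s0 := fun s => by
      rw [hs0]
      exact le_csSup hbdd ⟨s, rfl⟩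
    refine ⟨d s0, ⟨s0, rfl⟩, hmax, ?_⟩
    refine tendsto_order.2 ⟨fun a ha => hlow s0 a ha, fun a ha => ?_⟩
    have hlim : Tendsto (fun l => (d s0 : ℝ) * ((U l : ℝ) / n l)) atTop (𝓝 (d s0)) := by
      have := hU.const_mul (d s0 : ℝ)
      rwa [mul_one] at this
    filter_upwards [hlim.eventually_lt_const ha, eventually_ge_atTop 1] with l hl hl1
    refine lt_of_le_of_lt ?_ hl
    rw [← mul_div_assoc]
    refine div_le_div_of_nonneg_right ?_ (hn0 l).le
    have h4 : v l ≤ d s0 * U l := (h3 l hl1).trans (Nat.mul_le_mul_right _ (hmax l))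
    exact_mod_cast h4
  · right
    push Not at hb
    refine tendsto_atTop.2 fun a => ?_
    obtain ⟨m, hm⟩ := exists_nat_gt a
    obtain ⟨s, hs⟩ := hb m
    have hs' : a < d s := hm.trans (by exact_mod_cast hs)
    exact (hlow s a hs').mono fun l hl => hl.le

end Pool.Agent.Helper73.QL
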