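import Mathlib
import Pool.Agent.Helper34.ZP.G8
import Pool.Agent.Helper10.ZP.Q1
import Pool.Agent.Helper4.HL.Uni
import Pool.Agent.Helper46.QL.Gen
import Pool.Agent.Helper59.ZP.Gen
import Pool.Agent.Helper73.QL.Lim

/-!
# The quantization law, for the auxiliary structure
-/

universe u v w t

open CategoryTheory TensorProduct Filter Topology

namespace Pool.Agent.Helper73.QL

open Pool.Agent.Helper10 Pool.Agent.Helper11.Iso SmProjVar SPre Pool.Agent.Helper34.ZP

variable {k : Type u} [Field k] {K : Type t} [Field K] {Ω : Type v} [Field Ω] [Algebra K Ω]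
  {P : SPre.{u, v, w, t} k K Ω}

/-- D for all powers: no null classes, no null maps -/
lemma radS_eq_bot {Y : SmProjVar k} (h : P.D Y) : radS P Y = ⊥ := by
  rw [eq_bot_iff]
  intro x hx
  rw [Submodule.mem_bot]
  exact h x hx

lemma Nul_pow_pow {X : SmProjVar k} (hD : P.DP X) (m n : ℕ) :
    Nul P (X.selfProd m) (X.selfProd n) = ⊥ := by
  refine Nul_eq_bot (radS_eq_bot ?_)
  exact SPre.D.retract (Retract.pow_prod_pow X m n) (hD _)

lemma hr_eq_nr {Y : SmProjVar k} (h : P.D Y) : hr P Y = nr P Y := by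
  unfold hr nr rdim
  rw [radS_eq_bot h, inf_bot_eq, finrank_bot, Nat.sub_zero]

/-- **The quantization law**, for the auxiliary structure: `V` is a system of classes on the
powers of `X` which contains the algebraic classes and is stable under algebraic maps. -/
theorem ql [CharZero Ω] (hpt : ∀ Y, 1 ≤ nr P Y) (X : SmProjVar k)
    (V : ∀ n : ℕ, Submodule Ω (P.H (X.selfProd n)))
    (hA : ∀ n, P.alg (X.selfProd n) ≤ V n)
    (hM : ∀ m n, ∀ f ∈ Mor P (X.selfProd m) (X.selfProd n), ∀ u ∈ V m, f u ∈ V n) :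
    (∀ M : ℕ, ∃ L, ∀ m ≥ L, M * nr P (X.selfProd m) ≤ Module.finrank Ω (V m)) ∨
    (P.DP X ∧ ∃ d : ℕ, 1 ≤ d ∧ (d = 1 ↔ ∀ n, V n = P.alg (X.selfProd n)) ∧
      Tendsto (fun m => (Module.finrank Ω (V m) : ℝ) / nr P (X.selfProd m)) atTop (𝓝 d)) := by
  by_cases hD : P.DP X
  swap
  · left
    intro M
    obtain ⟨L, hL⟩ := zop hpt X hD M
    exact ⟨L, fun m hm => (hL m hm).trans (Submodule.finrank_mono (hA m))⟩
  obtain ⟨U, hU1, hU2, hU3, hU4⟩ := Pool.Agent.Helper4.HL.exists_U hpt hD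
  have hn : ∀ l, 1 ≤ nr P (X.selfProd l) := fun l => hpt _
  -- the chains
  have hch : ∀ r : ℕ, ∃ (s : ℕ) (g : Fin s → P.H (X.selfProd r) →ₗ[Ω] P.H (X.selfProd r)),
      (∀ i, g i ≠ 0) ∧ (s = 0 → V r = P.alg (X.selfProd r)) ∧
      (∀ m, 1 ≤ m → Module.finrank Ω (gen P (V r) (X.selfProd m)) ≤
        (1 + ∑ i, Module.finrank Ω (LinearMap.range (g i))) * U m) ∧
      Tendsto (fun m => (Module.finrank Ω (gen P (V r) (X.selfProd m)) : ℝ) /
        (nr P (X.selfProd m) : ℝ)) atTop
        (𝓝 ((1 + ∑ i, Module.finrank Ω (LinearMap.range (g i)) : ℕ) : ℝ)) := by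
    intro r
    obtain ⟨s, g, h1, h2, h3⟩ := q1 (hpt _) (Nul_pow_pow hD r r) (V r) (hA r) (hM r r)
    have h4 : Tendsto (fun m => (nr P ((X.selfProd r).prod (X.selfProd m)) : ℝ) /
        (nr P (X.selfProd m) : ℝ)) atTop (𝓝 (Module.finrank Ω (P.H (X.selfProd r)) : ℝ)) := by
      rw [finrank_selfProd]
      push_cast
      exact hU4 r
    obtain ⟨h5, h6⟩ := Pool.Agent.Helper46.QL.gen_data (Z := X.selfProd r)
      (Y := fun m => X.selfProd m) (U := U) hn hU1 (fun m hm e he hee => hU2 m hm _ e he hee)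
      hU3 h4 (fun m => radS_eq_bot (hD m)) (fun m => Nul_pow_pow hD r m) (M := V r)
      (fun i => ⟨(h1 i).1, (h1 i).2.1⟩) (fun m => h3 _ (Nul_pow_pow hD r m))
    exact ⟨s, g, fun i => (h1 i).2.2, h2, h5, h6⟩
  choose s g hg hs hup hlim using hch
  set d : ℕ → ℕ := fun r => 1 + ∑ i, Module.finrank Ω (LinearMap.range (g r i)) with hd
  have h1 : ∀ r, ∀ᶠ m in atTop, Module.finrank Ω (gen P (V r) (X.selfProd m)) ≤
      Module.finrank Ω (V m) := fun r => Eventually.of_forall fun m =>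
    Submodule.finrank_mono (gen_le fun T hT t ht => hM r m T hT t ht)
  have h3 : ∀ r ≥ 1, Module.finrank Ω (V r) ≤ d r * U r := by
    intro r hr
    have h4 := hup r r hr
    rwa [gen_self (hM r r)] at h4
  rcases limit_law' (v := fun m => Module.finrank Ω (V m)) (n := fun m => nr P (X.selfProd m))
      (g := fun r m => Module.finrank Ω (gen P (V r) (X.selfProd m))) (d := d) hn h1 hlim h3
      hU3 with ⟨D, ⟨r0, hr0⟩, hmax, hlimD⟩ | hinf
  · right
    refine ⟨hD, D, ?_, ⟨fun h => fun n => ?_, fun h => ?_⟩, hlimD⟩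
    · rw [← hr0]
      exact Nat.le_add_right _ _
    · have h4 := hmax n
      rw [h] at h4
      have h5 : ∑ i, Module.finrank Ω (LinearMap.range (g n i)) = 0 := by
        have : d n = 1 + ∑ i, Module.finrank Ω (LinearMap.range (g n i)) := rfl
        omega
      exact hs n ((Pool.Agent.Helper46.QL.sum_rank_eq_zero_iff (hg n)).1 h5)
    · have h4 : (fun m => (Module.finrank Ω (V m) : ℝ) / nr P (X.selfProd m)) =
          fun _ => (1 : ℝ) := by
        funext m
        have h0 : (0 : ℝ) < nr P (X.selfProd m) := by exact_mod_cast hn m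
        rw [h m]
        have h5 : Module.finrank Ω (P.alg (X.selfProd m)) = nr P (X.selfProd m) :=
          hr_eq_nr (hD m)
        rw [h5, div_self h0.ne']
      have h5 : Tendsto (fun m => (Module.finrank Ω (V m) : ℝ) / nr P (X.selfProd m)) atTop
          (𝓝 (1 : ℝ)) := by
        rw [h4]
        exact tendsto_const_nhds
      have h6 : (D : ℝ) = 1 := tendsto_nhds_unique hlimD h5
      exact_mod_cast h6
  · left
    intro M
    obtain ⟨L, hL⟩ := eventually_atTop.1 (hinf.eventually_ge_atTop (M : ℝ))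
    refine ⟨L, fun m hm => ?_⟩
    have h4 := hL m hm
    have h0 : (0 : ℝ) < nr P (X.selfProd m) := by exact_mod_cast hn m
    rw [le_div_iff₀ h0] at h4
    exact_mod_cast h4

end Pool.Agent.Helper73.QL
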